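import Pool.Agent.H268R2.PR.Core

/-! The diagonal case for heavy graphs from an off-diagonal Ramsey bound. -/

set_option autoImplicit false

open Finset Filter

namespace Pool.Agent.H268R2.PR

open Pool.Agent.H111R2

/-- the asymptotic statement, from a bound `C₀ exp (α k + γ l)` for all Ramsey numbers -/
theorem asym {α γ c θ : ℝ} (hα : 0 ≤ α) (hc1 : 1 < c) (hθ0 : 0 ≤ θ) (hθ1 : θ < 1)
    (hc : α + γ < Real.log c * (θ + (1 - θ) * (α / Real.log 2)))
    (H : ∃ C₀ : ℝ, 0 < C₀ ∧ ∀ (k l : ℕ) {V : Type} [DecidableEq V] (G : SimpleGraph V)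
      (S : Finset V), KFree G S k → KFree Gᶜ S l → (S.card : ℝ) + 1 ≤ C₀ * Real.exp (α * k + γ * l))
    (C : ℝ) (hC : 0 ≤ C) :
    ∃ K : ℕ, ∀ k : ℕ, K ≤ k → ∀ n : ℕ, c ^ k ≤ (n : ℝ) → ∀ G : SimpleGraph (Fin n),
      Heavy G (C * (n : ℝ) ^ θ) →
        (∃ s : Finset (Fin n), G.IsNClique k s) ∨ (∃ s : Finset (Fin n), Gᶜ.IsNClique k s) := by
  obtain ⟨C₀, hC₀, H⟩ := H
  have hl2 : 0 < Real.log 2 := Real.log_pos (by norm_num)
  have hlc : 0 < Real.log c := Real.log_pos hc1
  set A : ℝ := 2 * C + 2 with hA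
  have hA0 : 0 < A := by positivity
  set δ : ℝ := Real.log c * (θ + (1 - θ) * (α / Real.log 2)) - (α + γ) with hδ
  have hδ0 : 0 < δ := by rw [hδ]; linarith
  set M : ℝ := Real.log C₀ + α * (Real.log A / Real.log 2 + 1) with hM
  have ev1 : ∀ᶠ k : ℕ in atTop, M < δ * k := by
    have : Tendsto (fun k : ℕ => δ * (k : ℝ)) atTop atTop :=
      tendsto_natCast_atTop_atTop.const_mul_atTop hδ0
    exact this.eventually_gt_atTop M
  have ev2 : ∀ᶠ k : ℕ in atTop, Real.log A ≤ ((1 - θ) * Real.log c) * k := by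
    have : Tendsto (fun k : ℕ => ((1 - θ) * Real.log c) * (k : ℝ)) atTop atTop :=
      tendsto_natCast_atTop_atTop.const_mul_atTop (by apply mul_pos _ hlc; linarith)
    exact this.eventually_ge_atTop _
  obtain ⟨K, hK⟩ := eventually_atTop.mp ((ev1.and ev2).and (eventually_ge_atTop 1))
  refine ⟨K, fun k hk n hn G hG => ?_⟩
  obtain ⟨⟨h1, h2⟩, hk1⟩ := hK k hk
  by_contra hcon
  push Not at hcon
  have hf1 : KFree G Finset.univ k := fun t _ => hcon.1 t
  have hf2 : KFree Gᶜ Finset.univ k := fun t _ => hcon.2 t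
  set N : ℝ := (n : ℝ) with hN
  have hcard : ((Finset.univ : Finset (Fin n)).card : ℝ) = N := by simp [hN]
  have hck : (1:ℝ) ≤ c ^ k := one_le_pow₀ hc1.le
  have hN1 : 1 ≤ N := hck.trans hn
  have hN0 : 0 < N := by linarith
  have hlogN : (k : ℝ) * Real.log c ≤ Real.log N := by
    have := Real.log_le_log (by positivity) hn
    rwa [Real.log_pow] at this
  obtain ⟨P, hP⟩ : ∃ P : ℝ, P = N ^ θ := ⟨_, rfl⟩
  obtain ⟨Q, hQ⟩ : ∃ Q : ℝ, Q = N ^ (1 - θ) := ⟨_, rfl⟩
  rw [← hP] at hG
  have hP1 : 1 ≤ P := by rw [hP]; exact Real.one_le_rpow hN1 hθ0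
  have hQ1 : 1 ≤ Q := by rw [hQ]; exact Real.one_le_rpow hN1 (by linarith)
  have hPQ : P * Q = N := by
    rw [hP, hQ, ← Real.rpow_add hN0]
    simp
  have hQN : Q ≤ N := by nlinarith
  have hlogP : Real.log P = θ * Real.log N := by rw [hP, Real.log_rpow hN0]
  have hlogQ : Real.log Q = (1 - θ) * Real.log N := by rw [hQ, Real.log_rpow hN0]
  have hQA : Real.log A ≤ Real.log Q := by
    rw [hlogQ]
    have h3 : (1 - θ) * ((k : ℝ) * Real.log c) ≤ (1 - θ) * Real.log N :=
      mul_le_mul_of_nonneg_left hlogN (by linarith)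
    linarith
  have hB : 0 ≤ C * P := by positivity
  -- the number of steps
  set q : ℝ := Real.log (Q / A) / Real.log 2 with hq
  have hlogq : Real.log (Q / A) = Real.log Q - Real.log A := by
    rw [Real.log_div (by positivity) hA0.ne']
  have hq0 : 0 ≤ q := by
    apply div_nonneg _ hl2.le
    rw [hlogq]
    linarith
  set r : ℕ := ⌊q⌋₊ with hr
  have hr1 : (r : ℝ) ≤ q := Nat.floor_le hq0
  have hr2 : q < r + 1 := Nat.lt_floor_add_one q
  have hpow : (2:ℝ) ^ r ≤ Q / A := by
    have h3 : (2:ℝ) ^ r = Real.exp (Real.log 2 * r) := by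
      rw [mul_comm, Real.exp_nat_mul, Real.exp_log (by norm_num)]
    rw [h3, ← Real.exp_log (show 0 < Q / A by positivity)]
    apply Real.exp_le_exp.mpr
    rw [hq, le_div_iff₀ hl2] at hr1
    linarith
  rcases Nat.lt_or_ge r k with hrk | hrk
  · obtain ⟨k', rfl⟩ : ∃ k', k = k' + r := ⟨k - r, by omega⟩
    obtain ⟨T, hT, hT1, hT2⟩ := descend hB hG r k' Finset.univ (by omega) hf1
    have hT3 := hf2.mono hT
    have h4 := H k' (k' + r) G T hT1 hT3
    rw [hcard] at hT2
    have hTc : (0:ℝ) ≤ (T.card : ℝ) + 1 + C * P := by positivity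
    have h5 : N ≤ (Q / A) * ((T.card : ℝ) + 1 + C * P) := by
      have := mul_le_mul_of_nonneg_right hpow hTc
      linarith
    have h6 : A * P ≤ (T.card : ℝ) + 1 + C * P := by
      have h7 : N * A ≤ Q * ((T.card : ℝ) + 1 + C * P) := by
        have h8 := mul_le_mul_of_nonneg_right h5 hA0.le
        rw [show (Q / A) * ((T.card : ℝ) + 1 + C * P) * A =
          Q * ((T.card : ℝ) + 1 + C * P) by field_simp] at h8
        exact h8
      have h9 : Q * (A * P) ≤ Q * ((T.card : ℝ) + 1 + C * P) := by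
        rw [show Q * (A * P) = P * Q * A by ring, hPQ]
        exact h7
      exact le_of_mul_le_mul_left h9 (by linarith)
    have h7 : P ≤ (T.card : ℝ) + 1 := by
      rw [hA] at h6
      nlinarith
    have h8 : P ≤ C₀ * Real.exp (α * k' + γ * ((k' + r : ℕ) : ℝ)) := h7.trans h4
    have h9 : θ * Real.log N ≤ Real.log C₀ + (α * k' + γ * ((k' + r : ℕ) : ℝ)) := by
      have := Real.log_le_log (by positivity) h8
      rw [hlogP, Real.log_mul hC₀.ne' (Real.exp_pos _).ne', Real.log_exp] at this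
      exact this
    have h12 : (1 - θ) * Real.log N / Real.log 2 - Real.log A / Real.log 2 ≤ r + 1 := by
      rw [← sub_div, ← hlogQ, ← hlogq]; exact hr2.le
    have h17 := mul_le_mul_of_nonneg_left h12 hα
    have h14 : ((k' + r : ℕ) : ℝ) * (Real.log c * (θ + (1 - θ) * (α / Real.log 2))) ≤
        Real.log N * (θ + (1 - θ) * (α / Real.log 2)) := by
      have h15 : 0 ≤ (θ + (1 - θ) * (α / Real.log 2)) := by
        have : 0 ≤ 1 - θ := by linarith
        positivity
      have := mul_le_mul_of_nonneg_right hlogN h15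
      rw [← mul_assoc]
      exact this
    have h16 : Real.log N * (θ + (1 - θ) * (α / Real.log 2)) =
        θ * Real.log N + α * ((1 - θ) * Real.log N / Real.log 2) := by ring
    rw [hδ, hM] at h1
    have hcast : ((k' + r : ℕ) : ℝ) = (k' : ℝ) + r := by push_cast; ring
    rw [hcast] at h1 h9 h14
    rw [h16] at h14
    generalize hQ' : Real.log c * (θ + (1 - θ) * (α / Real.log 2)) = Q' at h1 h14
    generalize hX : θ * Real.log N = X at h9 h14
    generalize hY : (1 - θ) * Real.log N / Real.log 2 = Y at h14 h17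
    generalize hZ : Real.log A / Real.log 2 = Z at h1 h17
    generalize Real.log C₀ = c0 at h1 h9
    clear_value δ M q N
    clear h4 h5 h6 h7 h8 h12 hT2 hn hB hpow hlogq hQ hP hlogP hlogQ hQN
    linarith
  · -- `k ≤ r`: a clique of `G` is found by the steps alone
    obtain ⟨k', rfl⟩ : ∃ k', k = 1 + k' := ⟨k - 1, by omega⟩
    obtain ⟨T, hT, hT1, hT2⟩ := descend hB hG k' 1 Finset.univ le_rfl hf1
    have hT0 : T = ∅ := hT1.empty_of_one
    rw [hcard, hT0] at hT2
    simp only [card_empty, Nat.cast_zero, zero_add] at hT2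
    have h3 : (2:ℝ) ^ k' ≤ 2 ^ r := pow_le_pow_right₀ (by norm_num) (by omega)
    have h4 : (2:ℝ) ^ k' * (1 + C * P) ≤ Q / A * (1 + C * P) :=
      mul_le_mul_of_nonneg_right (h3.trans hpow) (by positivity)
    have h5 : Q / A * (1 + C * P) = (Q + C * N) / A := by
      rw [div_mul_eq_mul_div, mul_add, mul_one]
      congr 1
      rw [← hPQ]
      ring
    have h6 : (Q + C * N) / A ≤ N := by
      rw [div_le_iff₀ hA0, hA]
      have h7 : 0 ≤ C * N := by positivity
      linarith
    linarith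

end Pool.Agent.H268R2.PR
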