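import Pool.Agent.H268R2.PR.Core

/-! In conference graphs the numbers of edges and of non-edges in a vertex set are close. -/

set_option autoImplicit false

open Finset Matrix

namespace Pool.Agent.H268R2.PR

open Pool.Agent.H111R2

variable {V : Type} [Fintype V] [DecidableEq V]

/-- indicator vector -/
def ind (U : Finset V) : V → ℝ := fun x => if x ∈ U then 1 else 0

theorem quad (G : SimpleGraph V) [DecidableRel G.Adj] (U : Finset V) :
    ind U ⬝ᵥ (G.adjMatrix ℝ *ᵥ ind U) = (pairs G U : ℝ) := by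
  classical
  rw [pairs_eq_sum]
  push_cast
  unfold dotProduct ind
  simp only [ite_mul, one_mul, zero_mul]
  rw [← Finset.sum_filter, Finset.filter_mem_eq_inter, Finset.univ_inter]
  apply Finset.sum_congr rfl
  intro x _
  unfold mulVec dotProduct nb
  rw [Finset.card_filter]
  push_cast
  simp only [SimpleGraph.adjMatrix_apply, mul_ite, mul_one, mul_zero]
  rw [← Finset.sum_filter, Finset.filter_mem_eq_inter, Finset.univ_inter]

theorem conf_heavy (G : SimpleGraph V) [DecidableRel G.Adj] {m : ℕ} (hm : 1 ≤ m)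
    (h : G.IsSRGWith (4 * m + 1) (2 * m) (m - 1) m) :
    Heavy G (Real.sqrt ((4 * m + 1 : ℕ) : ℝ)) := by
  obtain ⟨A, hA⟩ : ∃ A : Matrix V V ℝ, A = G.adjMatrix ℝ := ⟨_, rfl⟩
  obtain ⟨B, hB⟩ : ∃ B : Matrix V V ℝ, B = Gᶜ.adjMatrix ℝ := ⟨_, rfl⟩
  obtain ⟨J, hJ⟩ : ∃ J : Matrix V V ℝ, J = Matrix.of fun _ _ => 1 := ⟨_, rfl⟩
  have e1 : 1 + A + B = J := by
    ext x y
    rw [hA, hB, hJ]
    simp only [Matrix.add_apply, Matrix.of_apply, SimpleGraph.adjMatrix_apply, SimpleGraph.compl_adj, Matrix.one_apply]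
    by_cases hxy : x = y
    · subst hxy; simp
    · by_cases ha : G.Adj x y <;> simp [hxy, ha]
  have e2 : A * A = (2 * m : ℝ) • (1 : Matrix V V ℝ) + ((m : ℝ) - 1) • A + (m : ℝ) • B := by
    have := h.matrix_eq (α := ℝ)
    rw [pow_two, ← hA, ← hB] at this
    rw [this]
    ext x y
    simp only [Matrix.add_apply, Matrix.smul_apply]
    simp only [nsmul_eq_mul, smul_eq_mul]
    push_cast [Nat.cast_sub hm]
    ring
  have e3 : A * J = (2 * m : ℝ) • J := by
    ext x y
    rw [hA, hJ, SimpleGraph.adjMatrix_mul_apply]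
    simp only [Matrix.of_apply, sum_const, nsmul_eq_mul, mul_one, Matrix.smul_apply, smul_eq_mul]
    have := h.regular x
    rw [SimpleGraph.card_neighborFinset_eq_degree, this]
    push_cast
    ring
  have e4 : J * A = (2 * m : ℝ) • J := by
    ext x y
    rw [hA, hJ, SimpleGraph.mul_adjMatrix_apply]
    simp only [Matrix.of_apply, sum_const, nsmul_eq_mul, mul_one, Matrix.smul_apply, smul_eq_mul]
    have := h.regular y
    rw [SimpleGraph.card_neighborFinset_eq_degree, this]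
    push_cast
    ring
  have e5 : J * J = (4 * m + 1 : ℝ) • J := by
    ext x y
    rw [hJ]
    simp only [Matrix.mul_apply, Matrix.of_apply, mul_one, sum_const, card_univ, nsmul_eq_mul, Matrix.smul_apply,
      smul_eq_mul]
    rw [h.card]
    push_cast
    ring
  obtain ⟨S, hS⟩ : ∃ S : Matrix V V ℝ, S = A - B := ⟨_, rfl⟩
  have e6 : S * S = (4 * m + 1 : ℝ) • (1 : Matrix V V ℝ) - J := by
    have e7 : S = A + A + 1 - J := by rw [hS, ← e1]; abel
    have e8 : S * S = A * A + A * A + (A * A + A * A) + (A + A + (A + A)) + 1 + J * J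
        - (A * J + A * J) - (J * A + J * A) - (J + J) := by
      rw [e7]; noncomm_ring
    rw [e8, e2, e3, e4, e5]
    have e9 : B = J - 1 - A := by rw [← e1]; abel
    rw [e9]
    ext x y
    simp only [Matrix.add_apply, Matrix.sub_apply, Matrix.smul_apply, smul_eq_mul]
    ring
  have hsym : Sᵀ = S := by
    rw [hS, hA, hB]
    simp only [transpose_sub, SimpleGraph.transpose_adjMatrix]
  intro U
  have q1 : ind U ⬝ᵥ (S *ᵥ ind U) = (pairs G U : ℝ) - (pairs Gᶜ U : ℝ) := by
    rw [hS, sub_mulVec, dotProduct_sub, hA, hB, quad, quad]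
  have q2 : (S *ᵥ ind U) ⬝ᵥ (S *ᵥ ind U) = (4 * m + 1 : ℝ) * U.card - (U.card : ℝ) ^ 2 := by
    have a1 : (S *ᵥ ind U) ⬝ᵥ (S *ᵥ ind U) = ind U ⬝ᵥ ((S * S) *ᵥ ind U) := by
      rw [← mulVec_mulVec, dotProduct_mulVec, ← mulVec_transpose, hsym, dotProduct_comm,
        dotProduct_comm (ind U)]
    rw [a1, e6, sub_mulVec, smul_mulVec, one_mulVec, dotProduct_sub, dotProduct_smul]
    have a2 : ind U ⬝ᵥ ind U = (U.card : ℝ) := by
      unfold dotProduct ind
      simp
    have a3 : ind U ⬝ᵥ (J *ᵥ ind U) = (U.card : ℝ) ^ 2 := by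
      rw [hJ]
      unfold dotProduct mulVec dotProduct ind
      simp [pow_two]
    rw [a2, a3, smul_eq_mul]
  have q3 : (ind U ⬝ᵥ (S *ᵥ ind U)) ^ 2 ≤ (U.card : ℝ) * ((4 * m + 1 : ℝ) * U.card) := by
    have b1 := Finset.sum_mul_sq_le_sq_mul_sq Finset.univ (ind U) (S *ᵥ ind U)
    have b2 : ∑ i, ind U i ^ 2 = (U.card : ℝ) := by
      unfold ind
      simp
    have b3 : ∑ i, (S *ᵥ ind U) i ^ 2 = (S *ᵥ ind U) ⬝ᵥ (S *ᵥ ind U) := by
      unfold dotProduct
      apply Finset.sum_congr rfl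
      intro i _
      ring
    rw [b2, b3, q2] at b1
    unfold dotProduct
    refine b1.trans ?_
    have : (0:ℝ) ≤ U.card := by positivity
    nlinarith [sq_nonneg (U.card : ℝ)]
  have q4 : |(pairs G U : ℝ) - (pairs Gᶜ U : ℝ)| ≤ Real.sqrt ((4 * m + 1 : ℕ) : ℝ) * U.card := by
    rw [← q1]
    apply Real.abs_le_sqrt q3 |>.trans
    rw [show (U.card : ℝ) * ((4 * m + 1 : ℝ) * U.card) = (4 * m + 1 : ℝ) * (U.card : ℝ) ^ 2 by ring,
      Real.sqrt_mul (by positivity), Real.sqrt_sq (by positivity)]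
    push_cast
    exact le_rfl
  have := (abs_le.mp q4).1
  linarith

end Pool.Agent.H268R2.PR
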