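import Pool.Agent.H111R2.Core

/-! Graphs whose vertex sets all have about as many edges as non-edges. -/

set_option autoImplicit false

open Finset

namespace Pool.Agent.H268R2.PR

open Pool.Agent.H111R2

variable {V : Type} [DecidableEq V]
set_option linter.unusedSectionVars false

open Classical in
/-- the number of ordered pairs of adjacent vertices in `U` -/
noncomputable def pairs (G : SimpleGraph V) (U : Finset V) : ℕ :=
  ((U ×ˢ U).filter fun p => G.Adj p.1 p.2).card

/-- In every vertex set `U` the non-adjacent pairs (ordered, of distinct vertices) outnumber the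
adjacent ones by at most `β |U|`. -/
def Heavy (G : SimpleGraph V) (β : ℝ) : Prop :=
  ∀ U : Finset V, (pairs Gᶜ U : ℝ) ≤ (pairs G U : ℝ) + β * U.card

theorem pairs_eq_sum (G : SimpleGraph V) (U : Finset V) :
    pairs G U = ∑ x ∈ U, (nb G x U).card := by
  classical
  unfold pairs
  rw [Finset.card_filter, Finset.sum_product]
  apply Finset.sum_congr rfl
  intro x _
  unfold nb
  rw [Finset.card_filter]

theorem nb_add (G : SimpleGraph V) (U : Finset V) {x : V} (hx : x ∈ U) :
    (nb G x U).card + (nb Gᶜ x U).card + 1 = U.card := by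
  classical
  have h1 : U = insert x (nb G x U ∪ nb Gᶜ x U) := by
    ext y
    simp only [mem_insert, mem_union, mem_nb, SimpleGraph.compl_adj]
    constructor
    · intro hy
      by_cases hxy : y = x
      · exact Or.inl hxy
      · right
        by_cases ha : G.Adj x y
        · exact Or.inl ⟨hy, ha⟩
        · exact Or.inr ⟨hy, fun h => hxy h.symm, ha⟩
    · rintro (rfl | ⟨hy, _⟩ | ⟨hy, _⟩)
      · exact hx
      · exact hy
      · exact hy
  have h2 : Disjoint (nb G x U) (nb Gᶜ x U) := by
    rw [Finset.disjoint_left]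
    intro y h3 h4
    rw [mem_nb] at h3 h4
    exact (SimpleGraph.compl_adj _ _ _).mp h4.2 |>.2 h3.2
  have h3 : x ∉ nb G x U ∪ nb Gᶜ x U := by
    simp only [mem_union, mem_nb, SimpleGraph.irrefl, and_false, or_self, not_false_eq_true]
  conv_rhs => rw [h1]
  rw [card_insert_of_notMem h3, card_union_of_disjoint h2]

theorem pairs_add (G : SimpleGraph V) (U : Finset V) :
    pairs G U + pairs Gᶜ U + U.card = U.card * U.card := by
  rw [pairs_eq_sum, pairs_eq_sum, ← Finset.sum_add_distrib]
  have h : ∑ x ∈ U, ((nb G x U).card + (nb Gᶜ x U).card) + U.card =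
      ∑ x ∈ U, ((nb G x U).card + (nb Gᶜ x U).card + 1) := by
    rw [Finset.sum_add_distrib (g := fun _ => 1), Finset.sum_const, smul_eq_mul, mul_one]
  rw [h, Finset.sum_congr rfl (fun x hx => nb_add G U hx), Finset.sum_const, smul_eq_mul]

/-- a vertex with at least about half of the other vertices of `U` as neighbours -/
theorem exists_large {G : SimpleGraph V} {β : ℝ} (h : Heavy G β) {U : Finset V}
    (hU : U.Nonempty) : ∃ x ∈ U, ((U.card : ℝ) + 1 + β) / 2 ≤ ((nb G x U).card : ℝ) + 1 + β := by
  by_contra hcon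
  push Not at hcon
  have h1 : (∑ x ∈ U, (((nb G x U).card : ℝ) + 1 + β)) < ∑ _x ∈ U, ((U.card : ℝ) + 1 + β) / 2 :=
    Finset.sum_lt_sum_of_nonempty hU hcon
  rw [Finset.sum_const, nsmul_eq_mul] at h1
  have h2 : (∑ x ∈ U, (((nb G x U).card : ℝ) + 1 + β)) = (pairs G U : ℝ) + U.card * (1 + β) := by
    rw [pairs_eq_sum]
    push_cast
    simp only [add_assoc]
    rw [Finset.sum_add_distrib, Finset.sum_const, nsmul_eq_mul]
  rw [h2] at h1
  have h3 := pairs_add G U
  have h3' : (pairs G U : ℝ) + (pairs Gᶜ U : ℝ) + U.card = (U.card : ℝ) * U.card := by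
    exact_mod_cast h3
  have h4 := h U
  nlinarith

/-- `r` steps in the colour of `G` -/
theorem descend {G : SimpleGraph V} {β : ℝ} (hβ : 0 ≤ β) (h : Heavy G β) (r : ℕ) :
    ∀ (k : ℕ) (S : Finset V), 1 ≤ k → KFree G S (k + r) →
      ∃ T ⊆ S, KFree G T k ∧ (S.card : ℝ) + 1 + β ≤ 2 ^ r * ((T.card : ℝ) + 1 + β) := by
  induction r with
  | zero =>
    intro k S _ hS
    exact ⟨S, subset_rfl, by simpa using hS, by simp⟩
  | succ r ih =>
    intro k S hk hS
    rcases S.eq_empty_or_nonempty with rfl | hne
    · refine ⟨∅, subset_rfl, ?_, ?_⟩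
      · intro t ht hc
        have ht' : t = ∅ := subset_empty.mp ht
        subst ht'
        have := hc.card_eq
        simp at this
        omega
      · have h1 : (1:ℝ) ≤ 2 ^ (r + 1) := one_le_pow₀ (by norm_num)
        have h2 : (0:ℝ) ≤ (((∅ : Finset V).card : ℝ) + 1 + β) := by positivity
        nlinarith
    · obtain ⟨x, hx, hx2⟩ := exists_large h hne
      have h1 : KFree G (nb G x S) (k + r) := by
        apply KFree.step (k := k + r) (x := x) hS hx (nb_subset G x S)
        intro y hy
        exact (mem_nb.mp hy).2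
      obtain ⟨T, hT, hT1, hT2⟩ := ih k (nb G x S) hk h1
      refine ⟨T, hT.trans (nb_subset G x S), hT1, ?_⟩
      rw [pow_succ]
      nlinarith

end Pool.Agent.H268R2.PR
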