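import Pool.Agent.H268R2.PR.Asy
import Pool.Agent.H268R2.PR.Conf
import Pool.Agent.H111R2.DataXF

/-! The diagonal Ramsey bound `2.9 ^ k` for graphs all of whose large vertex sets have at least
about as many edges as non-edges. -/

set_option autoImplicit false

open Finset Filter

namespace Pool.Agent.H268R2.PR

open Pool.Agent.H111R2

/-- the team's off-diagonal bounds -/
theorem offdiag {a b : ℕ} (hab : (a, b) ∈ claims3 cellsX) :
    ∃ C₀ : ℝ, 0 < C₀ ∧ ∀ (k l : ℕ) {V : Type} [DecidableEq V] (G : SimpleGraph V)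
    (S : Finset V), KFree G S k → KFree Gᶜ S l →
      (S.card : ℝ) + 1 ≤ C₀ * Real.exp ((b : ℝ) / 1000000000 * k + (a : ℝ) / 1000000000 * l) := by
  obtain ⟨C, hC, h⟩ := main_of_check3 mbX maX cellsX checkX
  refine ⟨C, hC, ?_⟩
  intro k l V _ G S h1 h2
  have h3 := (h k l G S h1 h2 _ hab).2
  unfold Bd D at h3
  push_cast at h3
  exact h3

theorem log_two_div {b B : ℝ} (hb : 0 ≤ b) (hB : B * 0.6931471808 ≤ b) : B ≤ b / Real.log 2 := by
  have hl2 : 0 < Real.log 2 := Real.log_pos (by norm_num)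
  have h2 := Real.log_two_lt_d9
  rw [le_div_iff₀ hl2]
  rcases le_or_gt 0 B with hB0 | hB0
  · nlinarith
  · nlinarith

/-- Taylor polynomial of the exponential with remainder -/
theorem exp_le_taylor {x : ℝ} (hx0 : 0 ≤ x) (hx1 : x ≤ 1) :
    Real.exp x ≤ 1 + x + x ^ 2 / 2 + x ^ 3 / 6 + x ^ 4 / 24 + x ^ 5 / 120 + x ^ 6 * 7 / 4320 := by
  have h3 := Real.exp_bound' hx0 hx1 (n := 6) (by norm_num)
  refine h3.trans (le_of_eq ?_)
  simp only [Finset.sum_range_succ, Finset.sum_range_zero, Nat.factorial]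
  push_cast
  ring

theorem log_lower {x c : ℝ} (hc : 0 < c) (hx0 : 0 ≤ x) (hx1 : x ≤ 1)
    (h : 1 + x + x ^ 2 / 2 + x ^ 3 / 6 + x ^ 4 / 24 + x ^ 5 / 120 + x ^ 6 * 7 / 4320 ≤ c) :
    x ≤ Real.log c := by
  rw [Real.le_log_iff_exp_le hc]
  exact (exp_le_taylor hx0 hx1).trans h

theorem log_lower' {x c : ℝ} (hc : 0 < c) (hx0 : 0 ≤ x) (hx1 : x ≤ 1)
    (h : 2.7182818286 *
      (1 + x + x ^ 2 / 2 + x ^ 3 / 6 + x ^ 4 / 24 + x ^ 5 / 120 + x ^ 6 * 7 / 4320) ≤ c) :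
    1 + x ≤ Real.log c := by
  rw [Real.le_log_iff_exp_le hc, Real.exp_add]
  exact (mul_le_mul Real.exp_one_lt_d9.le (exp_le_taylor hx0 hx1) (Real.exp_pos _).le
    (by norm_num)).trans h

theorem asym_of {a b : ℕ} {c θ L B : ℝ} (hab : (a, b) ∈ claims3 cellsX) (hc1 : 1 < c)
    (hθ0 : 0 ≤ θ) (hθ1 : θ < 1) (hL : L ≤ Real.log c) (hL0 : 0 ≤ L) (hB0 : 0 ≤ B)
    (hB : B * 0.6931471808 ≤ (b : ℝ) / 1000000000)
    (h : (b : ℝ) / 1000000000 + (a : ℝ) / 1000000000 < L * (θ + (1 - θ) * B)) (C : ℝ)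
    (hC : 0 ≤ C) :
    ∃ K : ℕ, ∀ k : ℕ, K ≤ k → ∀ n : ℕ, c ^ k ≤ (n : ℝ) → ∀ G : SimpleGraph (Fin n),
      Heavy G (C * (n : ℝ) ^ θ) →
        (∃ s : Finset (Fin n), G.IsNClique k s) ∨ (∃ s : Finset (Fin n), Gᶜ.IsNClique k s) := by
  refine asym (by positivity) hc1 hθ0 hθ1 (lt_of_lt_of_le h ?_) (offdiag hab) C hC
  have h1 := log_two_div (by positivity) hB
  have h2 : (1 - θ) * B ≤ (1 - θ) * ((b : ℝ) / 1000000000 / Real.log 2) :=
    mul_le_mul_of_nonneg_left h1 (by linarith)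
  have h3 : 0 ≤ θ + (1 - θ) * B := by
    have : 0 ≤ (1 - θ) * B := mul_nonneg (by linarith) hB0
    linarith
  calc L * (θ + (1 - θ) * B) ≤ Real.log c * (θ + (1 - θ) * B) :=
        mul_le_mul_of_nonneg_right hL h3
    _ ≤ _ := mul_le_mul_of_nonneg_left (by linarith) (hL0.trans hL)

/-- the exponents and bases -/
def Cases (θ c : ℝ) : Prop :=
  (θ = 1 / 4 ∧ c = 2.39) ∨ (θ = 1 / 2 ∧ c = 2.9) ∨ (θ = 2 / 3 ∧ c = 3.2) ∨ (θ = 3 / 4 ∧ c = 3.29)

theorem mem1 : ((63888347, 2523902000) : ℕ × ℕ) ∈ claims3 cellsX := by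
  rw [clX_eq]
  decide +kernel

theorem mem2 : ((201909140, 1413962000) : ℕ × ℕ) ∈ claims3 cellsX := by
  rw [clX_eq]
  decide +kernel

theorem mem3 : ((336101119, 993404000) : ℕ × ℕ) ∈ claims3 cellsX := by
  rw [clX_eq]
  decide +kernel

theorem mem4 : ((413361798, 839831000) : ℕ × ℕ) ∈ claims3 cellsX := by
  rw [clX_eq]
  decide +kernel

theorem asym_cases {θ c : ℝ} (h : Cases θ c) (C : ℝ) (hC : 0 ≤ C) :
    ∃ K : ℕ, ∀ k : ℕ, K ≤ k → ∀ n : ℕ, c ^ k ≤ (n : ℝ) → ∀ G : SimpleGraph (Fin n),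
      Heavy G (C * (n : ℝ) ^ θ) →
        (∃ s : Finset (Fin n), G.IsNClique k s) ∨ (∃ s : Finset (Fin n), Gᶜ.IsNClique k s) := by
  rcases h with ⟨rfl, rfl⟩ | ⟨rfl, rfl⟩ | ⟨rfl, rfl⟩ | ⟨rfl, rfl⟩
  · exact asym_of (L := 0.8705) (B := 3.6412) mem1 (by norm_num) (by norm_num) (by norm_num)
      (log_lower (by norm_num) (by norm_num) (by norm_num) (by norm_num)) (by norm_num)
      (by norm_num) (by norm_num) (by norm_num) C hC
  · exact asym_of (L := 1 + 0.0643) (B := 2.0399) mem2 (by norm_num) (by norm_num) (by norm_num)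
      (log_lower' (by norm_num) (by norm_num) (by norm_num) (by norm_num)) (by norm_num)
      (by norm_num) (by norm_num) (by norm_num) C hC
  · exact asym_of (L := 1 + 0.1628) (B := 1.43317) mem3 (by norm_num) (by norm_num) (by norm_num)
      (log_lower' (by norm_num) (by norm_num) (by norm_num) (by norm_num)) (by norm_num)
      (by norm_num) (by norm_num) (by norm_num) C hC
  · exact asym_of (L := 1 + 0.1906) (B := 1.2116) mem4 (by norm_num) (by norm_num) (by norm_num)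
      (log_lower' (by norm_num) (by norm_num) (by norm_num) (by norm_num)) (by norm_num)
      (by norm_num) (by norm_num) (by norm_num) C hC

/-- one step of the transfer to a Ramsey number at a smaller scale -/
theorem transfer {n a s t M : ℕ} {β : ℝ} (hβ : 0 ≤ β) (hs : 1 ≤ s)
    (hM : ∀ G : SimpleGraph (Fin M), (∃ S : Finset (Fin M), G.IsNClique s S) ∨
      (∃ S : Finset (Fin M), Gᶜ.IsNClique t S))
    (hn : 2 ^ a * ((M : ℝ) + 1 + β) ≤ (n : ℝ) + 1 + β) (G : SimpleGraph (Fin n))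
    (hG : Heavy G β) :
    (∃ S : Finset (Fin n), G.IsNClique (s + a) S) ∨ (∃ S : Finset (Fin n), Gᶜ.IsNClique t S) := by
  by_contra hcon
  push Not at hcon
  have hf1 : KFree G Finset.univ (s + a) := fun t _ => hcon.1 t
  obtain ⟨T, hT, hT1, hT2⟩ := descend hβ hG a s Finset.univ hs hf1
  have h1 : (((Finset.univ : Finset (Fin n)).card : ℕ) : ℝ) = n := by simp
  rw [h1] at hT2
  have h2 : (M : ℝ) ≤ T.card := by
    have h3 := hn.trans hT2
    have h4 := le_of_mul_le_mul_left h3 (by positivity)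
    linarith
  have h3 : M ≤ T.card := by exact_mod_cast h2
  -- an embedding of `Fin M` into `T`
  have h4 : M ≤ Fintype.card T := by simpa using h3
  obtain ⟨f⟩ : Nonempty (Fin M ↪ T) := by
    apply Function.Embedding.nonempty_of_card_le
    simpa using h4
  let g : Fin M ↪ Fin n := f.trans (Function.Embedding.subtype _)
  have hg : ∀ i, g i ∈ T := fun i => (f i).2
  rcases hM (G.comap g) with ⟨S, hS⟩ | ⟨S, hS⟩
  · apply hT1 (S.map g)
    · intro y hy
      rw [Finset.mem_map] at hy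
      obtain ⟨i, -, rfl⟩ := hy
      exact hg i
    · constructor
      · intro x hx y hy hxy
        simp only [Finset.coe_map, Set.mem_image, Finset.mem_coe] at hx hy
        obtain ⟨i, hi, rfl⟩ := hx
        obtain ⟨j, hj, rfl⟩ := hy
        exact hS.isClique hi hj (fun h => hxy (by rw [h]))
      · rw [Finset.card_map]; exact hS.card_eq
  · apply hcon.2 (S.map g)
    constructor
    · intro x hx y hy hxy
      simp only [Finset.coe_map, Set.mem_image, Finset.mem_coe] at hx hy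
      obtain ⟨i, hi, rfl⟩ := hx
      obtain ⟨j, hj, rfl⟩ := hy
      have h5 := hS.isClique hi hj (fun h => hxy (by rw [h]))
      rw [SimpleGraph.compl_adj] at h5 ⊢
      exact ⟨hxy, fun h => h5.2 h⟩
    · rw [Finset.card_map]; exact hS.card_eq

theorem conf_29 : ∃ K : ℕ, ∀ k : ℕ, K ≤ k → ∀ m : ℕ, (2.9 : ℝ) ^ k ≤ ((4 * m + 1 : ℕ) : ℝ) →
    ∀ (G : SimpleGraph (Fin (4 * m + 1))) [DecidableRel G.Adj],
      G.IsSRGWith (4 * m + 1) (2 * m) (m - 1) m →
        (∃ s : Finset (Fin (4 * m + 1)), G.IsNClique k s) ∨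
        (∃ s : Finset (Fin (4 * m + 1)), Gᶜ.IsNClique k s) := by
  obtain ⟨K, hK⟩ := asym_cases (θ := 1 / 2) (c := 2.9) (Or.inr (Or.inl ⟨rfl, rfl⟩)) 1 zero_le_one
  refine ⟨K + 1, fun k hk m hm G _ hG => ?_⟩
  apply hK k (by omega) _ hm G
  have hm1 : 1 ≤ m := by
    by_contra h0
    have h1 : m = 0 := by omega
    subst h1
    have h2 : (1:ℝ) < 2.9 ^ k := one_lt_pow₀ (by norm_num) (by omega)
    norm_num at hm
    linarith
  have := conf_heavy G hm1 hG
  rwa [one_mul, ← Real.sqrt_eq_rpow]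

end Pool.Agent.H268R2.PR
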